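import Pool.Agent.H16.TSS.ES.BPass_1
import Pool.Agent.H16.TSS.M26

/-!
# The Hausdorff dimension of the singular times of Hoelder Euler flows is sharp

For every `0 ≤ β < 1/3` and every `T > 0` there are a non-conservative weak solution
`v ∈ C^β(𝕋³ × [0,T])` of the incompressible Euler equations and a closed set `B ⊆ [0,T]` of Hausdorff
dimension exactly `2β/(1-β)` such that `v` is smooth on `𝕋³ × ([0,T] \ B)`.

The definitions (`WeakSolution`, `HolderClass`, `NonConservative`, `SmoothOff`) are in
`Pool.Agent.ES.Stmt`.  The proof is a convex integration scheme in two space dimensions based on exact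
solutions consisting of a mean flow and a long-lived oscillating wave of amplitude `O(1)` with respect
to the wave length, constructed in a weighted Wiener algebra in Lagrangian coordinates.
-/

namespace Pool.Agent.Results.MP_99e025_an.SharpSingularTimes

open EulerTimes

theorem result : ∀ β : ℝ, 0 ≤ β → β < 1 / 3 → ∀ T : ℝ, 0 < T →
    ∃ (v : R3 → ℝ → R3) (B : Set ℝ), WeakSolution T v ∧ HolderClass β T v ∧ NonConservative T v ∧
      IsClosed B ∧ B ⊆ Set.Icc 0 T ∧ SmoothOff T B v ∧
      dimH B = ENNReal.ofReal (2 * β / (1 - β)) := by
  intro β h0 h1 T hT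
  exact ES.main3 ES.bi_facts (by norm_num) (ES.block_of_pass (by norm_num) ES.pass_thm ES.bi_facts)
    h0 h1 hT

end Pool.Agent.Results.MP_99e025_an.SharpSingularTimes
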